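import Mathlib

namespace Pool.Agent.H.MP_d8c2c9_al

section Wqo
variable {T C : Type} [Finite T] [LinearOrder T] [Finite C]

def Emb {m n : ℕ} (w : Fin (m + 1) → T) (w' : Fin (n + 1) → T) : Prop :=
  ∃ τ : Fin (n + 1) → Fin (m + 1), Function.Surjective τ ∧ w ∘ τ = w' ∧
    ∀ x, toLex x < toLex w → toLex (x ∘ τ) < toLex w'

theorem wqo (k : ℕ → ℕ) (w : ∀ i, Fin (k i + 1) → T) (c : ℕ → C) :
    ∃ i j, i < j ∧ c i = c j ∧ Emb (w i) (w j) := by
  classical
  let mk : ∀ i, Fin (k i + 1) → T × Set T × Set T × C := fun i a =>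
    (w i a, {t | ∃ b < a, w i b = t}, Set.range (w i), c i)
  have H := Set.PartiallyWellOrderedOn.partiallyWellOrderedOn_sublistForall₂
    (α := T × Set T × Set T × C) (· = ·) (Set.finite_univ.partiallyWellOrderedOn)
  obtain ⟨i, j, hij, h⟩ := Set.partiallyWellOrderedOn_iff_exists_lt.1 H
    (fun i => List.ofFn (mk i)) (fun i x _ => Set.mem_univ x)
  obtain ⟨l, h1, h2⟩ := List.sublistForall₂_iff.1 h
  rw [List.forall₂_eq_eq_eq] at h1
  subst h1
  obtain ⟨f, hf⟩ := List.sublist_iff_exists_fin_orderEmbedding_get_eq.1 h2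
  let g : Fin (k i + 1) → Fin (k j + 1) := fun a =>
    Fin.cast (by simp) (f (Fin.cast (by simp) a))
  have hg : ∀ a, mk i a = mk j (g a) := fun a => by
    have := hf (Fin.cast (by simp) a)
    rw [List.get_ofFn, List.get_ofFn] at this
    exact this
  have hs : StrictMono g := fun a b hab => by
    have : f (Fin.cast (by simp) a) < f (Fin.cast (by simp) b) := f.strictMono hab
    exact this
  have e1 : ∀ a, w i a = w j (g a) := fun a => congrArg Prod.fst (hg a)
  have e2 : ∀ a, {t | ∃ b < a, w i b = t} = {t | ∃ b < g a, w j b = t} :=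
    fun a => congrArg (fun x => x.2.1) (hg a)
  have e3 : Set.range (w i) = Set.range (w j) := congrArg (fun x => x.2.2.1) (hg 0)
  have ex : ∀ b, ∃ a, w i a = w j b ∧ (∀ a', g a' = b → a = a') ∧
      ∀ a', b < g a' → a < a' := fun b => by
    by_cases hb : ∃ a, g a = b
    · obtain ⟨a, rfl⟩ := hb
      exact ⟨a, e1 a, fun a' h => hs.injective h.symm, fun a' h => hs.lt_iff_lt.1 h⟩
    · have : w j b ∈ Set.range (w i) := e3 ▸ ⟨b, rfl⟩
      obtain ⟨a, ha, hm⟩ := (wellFounded_lt (α := Fin (k i + 1))).has_min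
        {a | w i a = w j b} this
      refine ⟨a, ha, fun a' h => absurd ⟨a', h⟩ hb, fun a' h => ?_⟩
      have : w j b ∈ {t | ∃ b < a', w i b = t} := e2 a' ▸ ⟨b, h, rfl⟩
      obtain ⟨b', h1, h2⟩ := this
      exact (not_lt.1 (hm b' h2)).trans_lt h1
  choose τ t1 t2 t3 using ex
  refine ⟨i, j, hij, congrArg (fun x => x.2.2.2) (hg 0), τ, fun a => ⟨g a, t2 _ _ rfl⟩,
    funext t1, ?_⟩
  rintro x ⟨a, h3, h4⟩
  refine ⟨g a, fun b hb => (h3 _ (t3 b a hb)).trans (t1 b), ?_⟩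
  change x (τ (g a)) < w j (g a)
  rw [t2 _ _ rfl, ← e1]
  exact h4

end Wqo

theorem grob {W M : Type} [Finite W] [LinearOrder W] [AddCommGroup M]
    {U V : AddSubgroup (W → M)} (hUV : U < V) : ∃ w c, (∃ f ∈ V, f w = c ∧ ∀ x < w, f x = 0) ∧
      ¬ ∃ f ∈ U, f w = c ∧ ∀ x < w, f x = 0 := by
  by_contra H
  push Not at H
  have key : ∀ w, ∀ f ∈ V, (∀ x < w, f x = 0) → f ∈ U := by
    intro w
    induction w using WellFoundedGT.induction with
    | ind w ih =>
      intro f hf h0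
      obtain ⟨g, hg, e, g0⟩ := H w _ ⟨f, hf, rfl, h0⟩
      have : f - g ∈ U := by
        by_cases h : f - g = 0
        · rw [h]; exact zero_mem _
        obtain ⟨w', h1, h2⟩ := (wellFounded_lt (α := W)).has_min {x | (f - g) x ≠ 0}
          (Function.ne_iff.1 h)
        refine ih w' ?_ _ (sub_mem hf (hUV.le hg)) fun x hx => not_not.1 fun h => h2 x h hx
        refine lt_of_not_ge fun h3 => h1 ?_
        rcases h3.lt_or_eq with h3 | rfl
        · rw [Pi.sub_apply, h0 _ h3, g0 _ h3, sub_self]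
        · rw [Pi.sub_apply, e, sub_self]
      simpa using add_mem this hg
  refine hUV.not_ge fun f hf => ?_
  by_cases h : f = 0
  · rw [h]; exact zero_mem _
  obtain ⟨w, -, h2⟩ := (wellFounded_lt (α := W)).has_min {x | f x ≠ 0} (Function.ne_iff.1 h)
  exact key w f hf fun x hx => not_not.1 fun h => h2 x h hx

abbrev Fam (T M : Type) [AddCommGroup M] := ∀ k : ℕ, AddSubgroup ((Fin (k + 1) → T) → M)

instance finLex {α : Type} [Finite α] : Finite (Lex α) := ‹Finite α›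

variable {T M : Type} [Finite T] [AddCommGroup M] [Finite M]

def Pull (U : Fam T M) : Prop :=
  ∀ (m n : ℕ) (τ : Fin (n + 1) → Fin (m + 1)), ∀ f ∈ U n, (fun x => f (x ∘ τ)) ∈ U m

def Push (U : Fam T M) : Prop :=
  ∀ (m n : ℕ) (τ : Fin (n + 1) → Fin (m + 1)), Function.Surjective τ → ∀ u ∈ U m,
    Function.extend (fun x : Fin (m + 1) → T => x ∘ τ) u 0 ∈ U n

omit [Finite T] [Finite M] in
theorem ex_lt {U V : Fam T M} (h : U < V) : ∃ k, U k < V k := (Pi.lt_def.1 h).2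

theorem dcc (U : ℕ → Fam T M) (hU : ∀ i, Pull (U i)) : ¬ StrictAnti U := by
  intro h
  let _ : LinearOrder T := LinearOrder.lift' _ (Finite.equivFin T).injective
  choose k hk using fun i => ex_lt (h (Nat.lt_succ_self i))
  choose w c h1 h2 using fun i => grob (W := Lex (Fin (k i + 1) → T)) (hk i)
  obtain ⟨i, j, hij, e, τ, -, t1, t2⟩ := wqo k (fun i => ofLex (w i)) c
  obtain ⟨f, hf, f1, f2⟩ := h1 j
  refine h2 i ⟨_, hU _ _ _ τ f (h.antitone hij _ hf), ?_, fun x hx => f2 _ (t2 _ hx)⟩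
  rw [e, ← f1]
  exact congrArg f t1

theorem acc (U : ℕ → Fam T M) (hU : ∀ i, Push (U i)) : ¬ StrictMono U := by
  intro h
  let _ : LinearOrder T := LinearOrder.lift' _ (Finite.equivFin T).injective
  choose k hk using fun i => ex_lt (h (Nat.lt_succ_self i))
  choose w c h1 h2 using fun i => grob (W := (Lex (Fin (k i + 1) → T))ᵒᵈ) (hk i)
  obtain ⟨i, j, hij, e, τ, t0, t1, t2⟩ := wqo k (fun i => ofLex (OrderDual.ofDual (w i))) c
  obtain ⟨f, hf, f1, f2⟩ := h1 i
  have inj : Function.Injective fun x : Fin (k i + 1) → T => x ∘ τ := t0.injective_comp_right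
  refine h2 j ⟨_, hU _ _ _ τ t0 f (h.monotone hij _ hf), ?_, fun y hy => ?_⟩
  · rw [← e, ← f1]
    exact (congrArg _ t1.symm).trans (inj.extend_apply _ _ _)
  · by_cases hx : ∃ x : Fin (k i + 1) → T, x ∘ τ = y
    · obtain ⟨x, rfl⟩ := hx
      refine (inj.extend_apply _ _ _).trans (f2 _ (lt_of_not_ge fun h3 => ?_))
      rcases h3.lt_or_eq with h3 | h3
      · exact lt_asymm hy (t2 _ h3)
      · have : x = ofLex (OrderDual.ofDual (w i)) := h3.symm
        rw [this, t1] at hy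
        exact lt_irrefl _ hy
    · exact Function.extend_apply' _ _ _ hx

theorem fin_of_chain {X : ℕ → Type} [∀ k, AddCommGroup (X k)] [∀ k, Finite (X k)]
    (L : Set (∀ k, AddSubgroup (X k))) (hi : ∀ U ∈ L, ∀ V ∈ L, U ⊓ V ∈ L)
    (hs : ∀ U ∈ L, ∀ V ∈ L, U ⊔ V ∈ L)
    (ha : ∀ U : ℕ → ∀ k, AddSubgroup (X k), (∀ i, U i ∈ L) → ¬ StrictMono U)
    (hd : ∀ U : ℕ → ∀ k, AddSubgroup (X k), (∀ i, U i ∈ L) → ¬ StrictAnti U) : L.Finite := by
  have w1 : WellFoundedLT L := ⟨wellFounded_iff_isEmpty_descending_chain.2 ⟨fun ⟨f, hf⟩ =>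
    hd (fun i => (f i).1) (fun i => (f i).2) (strictAnti_nat_of_succ_lt hf)⟩⟩
  have w2 : WellFoundedGT L := ⟨wellFounded_iff_isEmpty_descending_chain.2 ⟨fun ⟨f, hf⟩ =>
    ha (fun i => (f i).1) (fun i => (f i).2) (strictMono_nat_of_lt_succ hf)⟩⟩
  have key : ∀ C : L, ∃ N, ∀ D ∈ L, ∀ E ∈ L, D ≤ E → E ≤ C.1 → (∀ j ≤ N, D j = E j) → D = E := by
    intro C
    induction C using WellFoundedLT.induction with
    | ind C ih =>
      by_cases hC : ∃ C' : L, C' < C
      · obtain ⟨C', h1, h2⟩ := (wellFounded_gt (α := L)).has_min {C' | C' < C} hC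
        obtain ⟨N, hN⟩ := ih C' h1
        obtain ⟨k, hk⟩ := (Pi.lt_def.1 (show C'.1 < C.1 from h1)).2
        have top : ∀ D ∈ L, D ≤ C.1 → ¬ D ≤ C'.1 → D ⊔ C'.1 = C.1 := fun D hD h3 h4 => by
          by_contra h5
          exact h2 ⟨_, hs D hD _ C'.2⟩
            (show D ⊔ C'.1 < C.1 from lt_of_le_of_ne (sup_le h3 h1.le) h5) (right_lt_sup.2 h4)
        refine ⟨max N k, fun D hD E hE h3 h4 h5 => ?_⟩
        have h6 : D ⊓ C'.1 = E ⊓ C'.1 := hN _ (hi D hD _ C'.2) _ (hi E hE _ C'.2)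
          (inf_le_inf_right _ h3) inf_le_right fun j hj => by
            simp only [Pi.inf_apply, h5 j (hj.trans (le_max_left _ _))]
        by_cases h7 : E ≤ C'.1
        · rwa [inf_eq_left.2 h7, inf_eq_left.2 (h3.trans h7)] at h6
        have h8 : ¬ D ≤ C'.1 := fun h => by
          have := congrFun (top E hE h4 h7) k
          rw [Pi.sup_apply, ← h5 k (le_max_right _ _), sup_eq_right.2 (h k)] at this
          exact hk.ne this
        exact funext fun j => eq_of_le_of_inf_le_of_sup_le (h3 j) (h6.ge j)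
          (((top E hE h4 h7).trans (top D hD (h3.trans h4) h8).symm).le j)
      · refine ⟨0, fun D hD E hE h3 h4 _ => ?_⟩
        by_contra h
        exact hC ⟨⟨D, hD⟩, (lt_of_le_of_ne h3 h).trans_le h4⟩
  rcases L.eq_empty_or_nonempty with rfl | ⟨U, hU⟩
  · exact Set.finite_empty
  obtain ⟨C, -, hC⟩ := (wellFounded_gt (α := L)).has_min Set.univ ⟨⟨U, hU⟩, trivial⟩
  obtain ⟨N, hN⟩ := key C
  have le : ∀ D ∈ L, D ≤ C.1 := fun D hD => by
    by_contra h
    exact hC ⟨_, hs D hD _ C.2⟩ trivial (right_lt_sup.2 h)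
  refine Set.Finite.of_finite_image (f := fun D (j : Fin (N + 1)) => (D j : Set (X j)))
    (Set.toFinite _) fun D hD E hE e => ?_
  have e' : ∀ j ≤ N, D j = E j := fun j hj =>
    SetLike.coe_injective (congrFun e ⟨j, Nat.lt_succ_of_le hj⟩)
  have a := hN _ (hi D hD E hE) D hD inf_le_left (le D hD) fun j hj => by
    simp only [Pi.inf_apply, e' j hj, inf_idem]
  have b := hN _ (hi D hD E hE) E hE inf_le_right (le E hE) fun j hj => by
    simp only [Pi.inf_apply, e' j hj, inf_idem]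
  exact a.symm.trans b

end Pool.Agent.H.MP_d8c2c9_al
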