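import Pool.Agent.H.MP_d8c2c9_al.A

namespace Pool.Agent.H.MP_d8c2c9_al

theorem exists_lam {n : ℕ} (hn : n ≠ 0) : ∃ c : ℂ → ℤ, ∀ (ι : Type) [Fintype ι] (z : ι → ℂ)
    (m : ℕ), (∀ i, z i ^ n = 1) → ∑ i, z i = m → ∑ i, c (z i) = m := by
  classical
  have hζ := Complex.isPrimitiveRoot_exp n hn
  set ζ := Complex.exp (2 * Real.pi * Complex.I / n)
  have : NeZero n := ⟨hn⟩
  let pb := Algebra.adjoin.powerBasis' (R := ℤ) (hζ.isIntegral (Nat.pos_of_ne_zero hn))
  let l := pb.basis.coord ⟨0, pb.dim_pos⟩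
  have l1 : l 1 = 1 := by
    have : pb.basis ⟨0, pb.dim_pos⟩ = 1 := by rw [pb.basis_eq_pow]; simp
    rw [← this]
    simp only [l, Module.Basis.coord_apply, Module.Basis.repr_self, Finsupp.single_eq_same]
  refine ⟨fun z => if h : z ∈ Algebra.adjoin ℤ {ζ} then l ⟨z, h⟩ else 0, fun ι _ z m hz h => ?_⟩
  have hm : ∀ i, z i ∈ Algebra.adjoin ℤ {ζ} := fun i => by
    obtain ⟨j, -, e⟩ := hζ.eq_pow_of_pow_eq_one (hz i)
    rw [← e]
    exact pow_mem (Algebra.self_mem_adjoin_singleton ℤ ζ) j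
  simp only [dif_pos (hm _)]
  rw [← map_sum]
  have : ∑ i, (⟨z i, hm i⟩ : Algebra.adjoin ℤ {ζ}) = m • 1 := Subtype.ext (by simp [h])
  rw [this, map_nsmul, l1]
  simp

variable {A B : Type} [AddCommGroup A] [Fintype A] [AddCommGroup B] [Finite B]

abbrev ZZ (A : Type) [Fintype A] := {z : ℂ // z ^ Fintype.card A = 1}

instance finZ : Finite (ZZ A) := by
  have : ({z : ℂ | z ^ Fintype.card A = 1}).Finite := by
    refine (Polynomial.nthRootsFinset (Fintype.card A) (1 : ℂ)).finite_toSet.subset fun z hz => ?_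
    exact (Polynomial.mem_nthRootsFinset Fintype.card_pos 1).2 hz
  exact this

theorem chi_pow {k : ℕ} (w : Fin k → AddChar A ℂ) (a : Fin k → A) :
    (∏ i, w i (a i)) ^ Fintype.card A = 1 := by
  rw [← Finset.prod_pow]
  exact Finset.prod_eq_one fun i _ => by
    rw [← AddChar.map_nsmul_eq_pow, card_nsmul_eq_zero, AddChar.map_zero_eq_one]

noncomputable def Psi (A B : Type) [AddCommGroup A] [Fintype A] [AddCommGroup B] (k : ℕ) :
    ((Fin k → AddChar A ℂ) → ZZ A → B) →+ ((Fin k → A) → B) where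
  toFun u a := ∑ w, u w ⟨∏ i, w i (a i), chi_pow w a⟩
  map_zero' := by ext; simp
  map_add' := fun u v => by ext; simp [Finset.sum_add_distrib]

theorem Psi_surj (h : (Nat.card A).Coprime (Nat.card B)) (k : ℕ) :
    Function.Surjective (Psi A B k) := by
  classical
  obtain ⟨c, hc⟩ := exists_lam (Fintype.card_ne_zero (α := A))
  intro f
  change f ∈ (Psi A B k).range
  rw [← Finset.univ_sum_single f]
  refine sum_mem fun a0 _ => ?_
  obtain ⟨b, hb⟩ := (nsmulCoprime (G := B) (n := Fintype.card A ^ k)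
    (by rw [← Nat.card_eq_fintype_card]; exact h.symm.pow_right k)).surjective (f a0)
  refine ⟨fun w z => c (z.1 * ∏ i, w i (-a0 i)) • b, funext fun a => ?_⟩
  change ∑ w : Fin k → AddChar A ℂ, c ((∏ i, w i (a i)) * ∏ i, w i (-a0 i)) • b = _
  simp only [← Finset.prod_mul_distrib, ← AddChar.map_add_eq_mul]
  have h1 : ∑ w : Fin k → AddChar A ℂ, ∏ i, w i (a i + -a0 i) =
      ((if a = a0 then Fintype.card A ^ k else 0 : ℕ) : ℂ) := by
    have := Finset.prod_univ_sum (fun _ : Fin k => (Finset.univ : Finset (AddChar A ℂ)))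
      fun i ψ => ψ (a i + -a0 i)
    rw [Fintype.piFinset_univ] at this
    rw [← this]
    simp only [AddChar.sum_apply_eq_ite]
    split_ifs with e
    · simp [e]
    · obtain ⟨i, hi⟩ := Function.ne_iff.1 e
      rw [Finset.prod_eq_zero (Finset.mem_univ i) (if_neg fun h => hi (add_neg_eq_zero.1 h))]
      simp
  rw [← Finset.sum_smul, hc _ _ _ (fun w => chi_pow w fun i => a i + -a0 i) h1, Pi.single_apply]
  split_ifs
  · rw [natCast_zsmul]; exact hb
  · simp

def SumC (U : Fam A B) : Prop :=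
  ∀ (m n : ℕ) (τ : Fin (n + 1) → Fin (m + 1)), ∀ f ∈ U m,
    (fun y : Fin (n + 1) → A => f fun i => ∑ j, (if τ j = i then y j else 0)) ∈ U n

theorem map_sum_char {ι : Type} (s : Finset ι) (ψ : AddChar A ℂ) (y : ι → A) :
    ψ (∑ j ∈ s, y j) = ∏ j ∈ s, ψ (y j) := by
  induction s using Finset.cons_induction with
  | empty => simp
  | cons i s hi ih => rw [Finset.sum_cons, Finset.prod_cons, AddChar.map_add_eq_mul, ih]

theorem acc_sum (h : (Nat.card A).Coprime (Nat.card B)) (U : ℕ → Fam A B)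
    (hU : ∀ i, SumC (U i)) : ¬ StrictMono U := by
  classical
  intro hm
  refine acc (fun i k => (U i k).comap (Psi A B (k + 1))) (fun i m n τ hτ u hu => ?_)
    fun i j hij => lt_of_le_of_ne (fun k => AddSubgroup.comap_mono ((hm hij).le k)) fun e =>
      (hm hij).ne (funext fun k => AddSubgroup.comap_injective (Psi_surj h _) (congrFun e k))
  have inj : Function.Injective fun x : Fin (m + 1) → AddChar A ℂ => x ∘ τ :=
    hτ.injective_comp_right
  rw [AddSubgroup.mem_comap]
  convert hU i m n τ _ hu using 1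
  funext y
  change ∑ w, _ = ∑ w, _
  symm
  refine Finset.sum_of_injOn (fun x => x ∘ τ) inj.injOn (fun _ _ => Finset.mem_univ _)
    (fun w _ hw => ?_) fun x _ => ?_
  · rw [Function.extend_apply' _ _ _ (by simpa using hw)]; rfl
  · rw [inj.extend_apply]
    congr 2
    simp only [map_sum_char, apply_ite (x _), AddChar.map_zero_eq_one]
    rw [Finset.prod_comm]
    simp

end Pool.Agent.H.MP_d8c2c9_al
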